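import Pool.Agent.N437.SPC.Stm

set_option autoImplicit false

namespace Pool.Agent.N92.SPC

open Finset Pool.Agent.N437.SPC

variable {α : Type} [DecidableEq α]

/-- the possible reductions of `Y` -/
def moves (r : ℕ) (f : Fin r → α → α → α) (X P : Finset α) (s t : ℕ) (Y : Finset α) :
    Finset (Finset α) :=
  ((univ : Finset (Fin r)) ×ˢ (insert Y (X.powersetCard t)) ×ˢ
    (Fintype.piFinset (fun _ : Fin s => P)) ×ˢ (range (s + 1))).image
    (fun z => red (f z.1) z.2.1 Y z.2.2.1 z.2.2.2)

/-- the family after `j` steps -/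
def fam (r : ℕ) (f : Fin r → α → α → α) (X P : Finset α) (s t : ℕ) : ℕ → Finset (Finset α)
  | 0 => {X}
  | (j + 1) => fam r f X P s t j ∪ (fam r f X P s t j).biUnion (moves r f X P s t)

theorem fam_sub (r : ℕ) (f : Fin r → α → α → α) (X P : Finset α) (s t : ℕ) (j : ℕ) :
    ∀ Y ∈ fam r f X P s t j, Y ⊆ X := by
  induction j with
  | zero => intro Y hY; rw [fam, Finset.mem_singleton] at hY; rw [hY]
  | succ j ih =>
    intro Y hY
    rw [fam, Finset.mem_union, Finset.mem_biUnion] at hY
    rcases hY with hY | ⟨Z, hZ, hY⟩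
    · exact ih Y hY
    · unfold moves at hY
      obtain ⟨z, -, rfl⟩ := Finset.mem_image.mp hY
      exact (Finset.filter_subset _ _).trans (ih Z hZ)

theorem fam_card (r : ℕ) (f : Fin r → α → α → α) (X P : Finset α) (s t : ℕ)
    (hP : P.card ≤ r * X.card ^ 2) (j : ℕ) :
    (fam r f X P s t j).card ≤
      (1 + r * (X.card ^ t + 1) * (r * X.card ^ 2) ^ s * (s + 1)) ^ j := by
  have hm : ∀ Y : Finset α, (moves r f X P s t Y).card ≤
      r * (X.card ^ t + 1) * (r * X.card ^ 2) ^ s * (s + 1) := by
    intro Y
    unfold moves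
    refine Finset.card_image_le.trans ?_
    rw [Finset.card_product, Finset.card_product, Finset.card_product, Finset.card_univ,
      Fintype.card_fin, Fintype.card_piFinset, Finset.prod_const, Finset.card_univ,
      Fintype.card_fin, Finset.card_range]
    have h1 : (insert Y (X.powersetCard t)).card ≤ X.card ^ t + 1 := by
      refine (Finset.card_insert_le _ _).trans ?_
      rw [Finset.card_powersetCard]
      exact Nat.add_le_add_right (Nat.choose_le_pow _ _) 1
    have h2 : P.card ^ s ≤ (r * X.card ^ 2) ^ s := Nat.pow_le_pow_left hP s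
    calc r * ((insert Y (X.powersetCard t)).card * (P.card ^ s * (s + 1)))
        ≤ r * ((X.card ^ t + 1) * ((r * X.card ^ 2) ^ s * (s + 1))) := by gcongr
      _ = _ := by ring
  induction j with
  | zero => simp [fam]
  | succ j ih =>
    rw [fam]
    refine (Finset.card_union_le _ _).trans ?_
    have h3 : ((fam r f X P s t j).biUnion (moves r f X P s t)).card ≤
        (fam r f X P s t j).card * (r * (X.card ^ t + 1) * (r * X.card ^ 2) ^ s * (s + 1)) :=
      Finset.card_biUnion_le_card_mul _ _ _ (fun Y _ => hm Y)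
    calc (fam r f X P s t j).card + ((fam r f X P s t j).biUnion (moves r f X P s t)).card
        ≤ (fam r f X P s t j).card * (1 + r * (X.card ^ t + 1) * (r * X.card ^ 2) ^ s * (s + 1)) := by
          rw [mul_add, mul_one]; exact Nat.add_le_add_left h3 _
      _ ≤ _ := by rw [pow_succ]; exact Nat.mul_le_mul_right _ ih

theorem fam_mono (r : ℕ) (f : Fin r → α → α → α) (X P : Finset α) (s t : ℕ) {i j : ℕ}
    (hij : i ≤ j) : fam r f X P s t i ⊆ fam r f X P s t j := by
  induction j, hij using Nat.le_induction with
  | base => exact Finset.Subset.refl _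
  | succ j _ ih => exact ih.trans (by rw [fam]; exact Finset.subset_union_left)

theorem sdiff_bound (A Y Z : Finset α) : (A \ Z).card ≤ (A \ Y).card + ((A ∩ Y) \ Z).card := by
  refine (Finset.card_le_card ?_).trans (Finset.card_union_le _ _)
  intro x hx
  rw [Finset.mem_sdiff] at hx
  rw [Finset.mem_union, Finset.mem_sdiff, Finset.mem_sdiff, Finset.mem_inter]
  by_cases h : x ∈ Y
  · exact Or.inr ⟨⟨hx.1, h⟩, hx.2⟩
  · exact Or.inl ⟨hx.1, h⟩

theorem t_FAM (h : S_STEP) : S_FAM := by
  intro α _ r f X s t l L hOp hs ht hL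
  set P : Finset α := univ.biUnion (fun i : Fin r => image₂ (f i) X X) with hPd
  have hPc : P.card ≤ r * X.card ^ 2 := by
    rw [hPd]
    refine (Finset.card_biUnion_le_card_mul _ _ (X.card ^ 2) (fun i _ => ?_)).trans ?_
    · refine (Finset.card_image₂_le _ _ _).trans ?_
      rw [sq]
    · rw [Finset.card_univ, Fintype.card_fin]
  refine ⟨fam r f X P s t L, fam_card r f X P s t hPc L, fam_sub r f X P s t L, ?_⟩
  intro A hA hW hl hAc
  set W : Fin r → Finset α := fun i => image₂ (f i) A A with hWd
  have hWP : ∀ i, W i ⊆ P := by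
    intro i x hx
    rw [hPd, Finset.mem_biUnion]
    exact ⟨i, Finset.mem_univ _, Finset.image₂_subset hA hA hx⟩
  -- the induction
  have key : ∀ j ≤ L, (∃ Y ∈ fam r f X P s t L, (A \ Y).card ≤ L * l ∧
        ∀ i, 99 * Y.card ≤ 100 * (gd (f i) Y (W i)).card ∧
          (A \ gd (f i) Y (W i)).card ≤ L * l + t) ∨
      (∃ Y ∈ fam r f X P s t j, (A \ Y).card ≤ j * l ∧ 400 ^ j * Y.card ≤ 399 ^ j * X.card) := by
    intro j
    induction j with
    | zero =>
      intro _
      right
      refine ⟨X, by rw [fam]; exact Finset.mem_singleton_self _, ?_, by simp⟩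
      rw [Finset.sdiff_eq_empty_iff_subset.mpr hA]
      simp
    | succ j ih =>
      intro hj
      rcases ih (by omega) with hc | ⟨Y, hY, hY1, hY2⟩
      · exact Or.inl hc
      have hYX := fam_sub r f X P s t j Y hY
      have hjl : j * l ≤ L * l := Nat.mul_le_mul_right _ (by omega)
      have hAY : (A ∩ Y).card + (A \ Y).card = A.card := Finset.card_inter_add_card_sdiff A Y
      have h2t : 2 * t ≤ (A ∩ Y).card := by omega
      have hst : ∀ i, _ := fun i => h (f i) X Y A (W i) s t (hOp i) hYX hA
        (fun a ha b hb => Finset.mem_image₂_of_mem ha hb) hs ht h2t (hW i)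
      by_cases hall : ∀ i, 99 * Y.card ≤ 100 * (gd (f i) Y (W i)).card ∧
          ((A ∩ Y) \ gd (f i) Y (W i)).card ≤ t
      · left
        refine ⟨Y, fam_mono r f X P s t (by omega) hY, by omega, ?_⟩
        intro i
        refine ⟨(hall i).1, ?_⟩
        have h5 := sdiff_bound A Y (gd (f i) Y (W i))
        have h6 := (hall i).2
        omega
      · right
        push Not at hall
        obtain ⟨i, hi⟩ := hall
        rcases hst i with h5 | ⟨R, hR, S, hS, q, hq, h6, h7⟩
        · exact absurd h5.2 (not_le.mpr (hi h5.1))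
        refine ⟨red (f i) R Y S q, ?_, ?_, ?_⟩
        · rw [fam, Finset.mem_union, Finset.mem_biUnion]
          right
          refine ⟨Y, hY, ?_⟩
          unfold moves
          rw [Finset.mem_image]
          refine ⟨(i, R, S, q), ?_, rfl⟩
          rw [Finset.mem_product, Finset.mem_product, Finset.mem_product]
          refine ⟨Finset.mem_univ _, ?_, ?_, ?_⟩
          · rw [Finset.mem_insert, Finset.mem_powersetCard]
            exact hR
          · exact Fintype.piFinset_subset _ _ (fun _ => hWP i) hS
          · rw [Finset.mem_range]; exact Nat.lt_succ_of_le hq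
        · have h8 := sdiff_bound A Y (red (f i) R Y S q)
          have h9 : ((A ∩ Y) \ red (f i) R Y S q).card ≤ l := by
            have h10 : (((A ∩ Y) \ red (f i) R Y S q).card : ℝ) ≤ l := by
              refine h7.trans (le_trans ?_ (hl i))
              have h11 : ((A ∩ Y).card : ℝ) ≤ A.card := by
                exact_mod_cast Finset.card_le_card Finset.inter_subset_left
              have h12 := mul_le_mul_of_nonneg_left h11
                (by positivity : (0 : ℝ) ≤ 320000 * ((W i).card : ℝ) / (s * t))
              linarith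
            exact_mod_cast h10
          have h13 : (j + 1) * l = j * l + l := by ring
          omega
        · calc 400 ^ (j + 1) * (red (f i) R Y S q).card
              = 400 ^ j * (400 * (red (f i) R Y S q).card) := by ring
            _ ≤ 400 ^ j * (399 * Y.card) := Nat.mul_le_mul_left _ h6
            _ = 399 * (400 ^ j * Y.card) := by ring
            _ ≤ 399 * (399 ^ j * X.card) := Nat.mul_le_mul_left _ hY2
            _ = 399 ^ (j + 1) * X.card := by ring
  rcases key L le_rfl with hc | ⟨Y, -, hY1, hY2⟩
  · exact hc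
  · exfalso
    have h5 : 400 ^ L * Y.card < 400 ^ L * 1 := by
      rw [mul_one]; exact lt_of_le_of_lt hY2 hL
    have h6 : Y.card < 1 := Nat.lt_of_mul_lt_mul_left h5
    have h7 : Y = ∅ := Finset.card_eq_zero.mp (by omega)
    rw [h7, Finset.sdiff_empty] at hY1
    omega

end Pool.Agent.N92.SPC
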