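import Pool.Agent.N437.SPC.Stm
import Pool.Agent.W975.SP.ST1
import Pool.Agent.W798.SP.Chain

set_option autoImplicit false

namespace Pool.Agent.N92.SPC

open Finset Pool.Agent.N437.SPC

/-- the number of the points in a line, seen from `(a, b)` -/
noncomputable def nn (H P : Finset ℝ) (l a b : ℝ) : ℕ :=
  (H.filter (fun c => l * c ∈ H ∧ a + c ∈ P ∧ b + l * c ∈ P)).card

theorem nn_le (H P : Finset ℝ) (l a b : ℝ) : nn H P l a b ≤ rep H l := by
  unfold nn rep
  apply Finset.card_le_card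
  intro c hc
  rw [Finset.mem_filter] at hc ⊢
  exact ⟨hc.1, hc.2.1⟩

theorem sum_nn (H P : Finset ℝ) (l : ℝ)
    (hP : ∀ y ∈ H, 9 * H.card ≤ 10 * cnt (fun a b => a + b) y H P) :
    81 * H.card ^ 2 * rep H l ≤ 100 * ∑ z ∈ H ×ˢ H, nn H P l z.1 z.2 := by
  have e : ∑ z ∈ H ×ˢ H, nn H P l z.1 z.2 = ∑ c ∈ H.filter (fun c => l * c ∈ H),
      (H.filter (fun a => a + c ∈ P)).card * (H.filter (fun b => b + l * c ∈ P)).card := by
    calc ∑ z ∈ H ×ˢ H, nn H P l z.1 z.2
        = ∑ z ∈ H ×ˢ H, ∑ c ∈ H.filter (fun c => l * c ∈ H),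
            (if z.1 + c ∈ P ∧ z.2 + l * c ∈ P then 1 else 0) := by
          apply Finset.sum_congr rfl
          intro z _
          unfold nn
          rw [← Finset.card_filter, Finset.filter_filter]
      _ = ∑ c ∈ H.filter (fun c => l * c ∈ H), ∑ z ∈ H ×ˢ H,
            (if z.1 + c ∈ P ∧ z.2 + l * c ∈ P then 1 else 0) := Finset.sum_comm
      _ = _ := by
          apply Finset.sum_congr rfl
          intro c _
          rw [← Finset.card_filter, ← Finset.card_product]
          congr 1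
          ext z
          simp only [Finset.mem_filter, Finset.mem_product]
          tauto
  rw [e, Finset.mul_sum]
  have er : rep H l = ∑ c ∈ H.filter (fun c => l * c ∈ H), 1 := by
    unfold rep
    rw [Finset.card_eq_sum_ones]
  rw [er, Finset.mul_sum]
  apply Finset.sum_le_sum
  intro c hc
  rw [Finset.mem_filter] at hc
  have h1 := hP c hc.1
  have h2 := hP (l * c) hc.2
  have e1 : cnt (fun a b => a + b) c H P = (H.filter (fun a => a + c ∈ P)).card := by
    unfold cnt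
    congr 1
    ext a
    simp only [Finset.mem_filter, add_comm]
  have e2 : cnt (fun a b => a + b) (l * c) H P = (H.filter (fun b => b + l * c ∈ P)).card := by
    unfold cnt
    congr 1
    ext a
    simp only [Finset.mem_filter, add_comm]
  rw [e1] at h1
  rw [e2] at h2
  calc 81 * H.card ^ 2 * 1 = (9 * H.card) * (9 * H.card) := by ring
    _ ≤ _ := Nat.mul_le_mul h1 h2
    _ = _ := by ring

/-- half of the pairs are good -/
theorem good_pairs (H P : Finset ℝ) (l : ℝ) (hr : 0 < rep H l)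
    (hP : ∀ y ∈ H, 9 * H.card ≤ 10 * cnt (fun a b => a + b) y H P) :
    H.card ^ 2 ≤ 2 * ((H ×ˢ H).filter (fun z => rep H l ≤ 2 * nn H P l z.1 z.2)).card := by
  classical
  set G := (H ×ˢ H).filter (fun z => rep H l ≤ 2 * nn H P l z.1 z.2) with hG
  have h1 := sum_nn H P l hP
  have h2 : 2 * ∑ z ∈ H ×ˢ H, nn H P l z.1 z.2 ≤ G.card * rep H l + H.card ^ 2 * rep H l := by
    have e1 : H.card ^ 2 * rep H l = ∑ z ∈ H ×ˢ H, rep H l := by
      rw [Finset.sum_const, Finset.card_product, smul_eq_mul, sq]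
    have e2 : G.card * rep H l =
        ∑ z ∈ H ×ˢ H, if rep H l ≤ 2 * nn H P l z.1 z.2 then rep H l else 0 := by
      rw [← Finset.sum_filter, Finset.sum_const, smul_eq_mul]
    rw [e1, e2, ← Finset.sum_add_distrib, Finset.mul_sum]
    apply Finset.sum_le_sum
    intro z _
    have h3 := nn_le H P l z.1 z.2
    split_ifs with h4
    · omega
    · omega
  have h3 : 162 * H.card ^ 2 * rep H l ≤ 100 * (G.card + H.card ^ 2) * rep H l := by
    calc 162 * H.card ^ 2 * rep H l = 2 * (81 * H.card ^ 2 * rep H l) := by ring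
      _ ≤ 2 * (100 * ∑ z ∈ H ×ˢ H, nn H P l z.1 z.2) := Nat.mul_le_mul_left _ h1
      _ = 100 * (2 * ∑ z ∈ H ×ˢ H, nn H P l z.1 z.2) := by ring
      _ ≤ 100 * (G.card * rep H l + H.card ^ 2 * rep H l) := Nat.mul_le_mul_left _ h2
      _ = _ := by ring
  have h4 := Nat.le_of_mul_le_mul_right h3 hr
  omega

theorem pow_three_sum {ι : Type*} (s : Finset ι) (f : ι → ℝ) (hf : ∀ a ∈ s, 0 ≤ f a) :
    (∑ x ∈ s, f x) ^ 3 ≤ (s.card : ℝ) ^ 2 * ∑ x ∈ s, f x ^ 3 := by
  rcases s.eq_empty_or_nonempty with h | h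
  · rw [h]; simp
  have h1 := pow_sum_div_card_le_sum_pow hf 2
  have hc : (0 : ℝ) < s.card := by exact_mod_cast Finset.card_pos.mpr h
  rw [div_le_iff₀ (by positivity)] at h1
  calc (∑ x ∈ s, f x) ^ 3 = (∑ x ∈ s, f x) ^ (2 + 1) := by norm_num
    _ ≤ _ := h1
    _ = _ := by ring

theorem inc_core (hST1 : ∀ (X Y : Finset ℝ) (L : Finset (ℝ × ℝ)) (k : ℕ), 2 ≤ k →
    (∀ l ∈ L, l.1 ≠ 0 ∧ k ≤ (X.filter (fun x => l.1 * x + l.2 ∈ Y)).card) →
    L.card * k ^ 3 ≤ 512 * X.card ^ 2 * Y.card ^ 2)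
    (hST2 : ∀ (X Y : Finset ℝ) (L : Finset (ℝ × ℝ)) (n m : ℕ), X.card ≤ n → Y.card ≤ m →
    (∀ l ∈ L, l.1 ≠ 0) → L.card ≤ (n * m) ^ 2 →
    ∑ l ∈ L, (X.filter (fun x => l.1 * x + l.2 ∈ Y)).card ^ 3 ≤
      4097 * (Nat.log 2 n + 1) * (n * m) ^ 2) : S_INC := by
  classical
  intro H P R k h0 hk hP hR
  rcases Nat.eq_zero_or_pos H.card with hh | hh
  · rw [hh]; simp
  set T : Finset (ℝ × ℝ × ℝ) := (R ×ˢ H ×ˢ H).filter
    (fun z => rep H z.1 ≤ 2 * nn H P z.1 z.2.1 z.2.2) with hT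
  set φ : ℝ × ℝ × ℝ → ℝ × ℝ := fun z => (z.1, z.2.2 - z.1 * z.2.1) with hφ
  set L : Finset (ℝ × ℝ) := T.image φ with hL
  have hrep : ∀ l ∈ R, 0 < rep H l := fun l hl => by have := (hR l hl).2; omega
  -- number of the triples
  have hTc : R.card * H.card ^ 2 ≤ 2 * T.card := by
    have e : T.card = ∑ l ∈ R,
        ((H ×ˢ H).filter (fun z => rep H l ≤ 2 * nn H P l z.1 z.2)).card := by
      rw [hT, Finset.card_filter, Finset.sum_product]
      apply Finset.sum_congr rfl
      intro l _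
      rw [Finset.card_filter]
    rw [e, Finset.mul_sum, Finset.card_eq_sum_ones, Finset.sum_mul]
    apply Finset.sum_le_sum
    intro l hl
    rw [one_mul]
    exact good_pairs H P l (hrep l hl) hP
  -- the slopes
  have hLs : ∀ e ∈ L, e.1 ≠ 0 := by
    intro e he
    rw [hL, Finset.mem_image] at he
    obtain ⟨z, hz, rfl⟩ := he
    rw [hT, Finset.mem_filter, Finset.mem_product] at hz
    exact (hR z.1 hz.1.1).1
  -- (i)
  have h1 : L.card * k ^ 3 ≤ 512 * P.card ^ 2 * P.card ^ 2 := by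
    apply hST1 P P L k hk
    intro e he
    refine ⟨hLs e he, ?_⟩
    rw [hL, Finset.mem_image] at he
    obtain ⟨z, hz, rfl⟩ := he
    rw [hT, Finset.mem_filter, Finset.mem_product] at hz
    have h5 := (hR z.1 hz.1.1).2
    have h6 : k ≤ nn H P z.1 z.2.1 z.2.2 := by
      have := hz.2
      omega
    refine h6.trans ?_
    unfold nn
    apply Finset.card_le_card_of_injOn (fun c => z.2.1 + c)
    · intro c hc
      rw [Finset.mem_coe, Finset.mem_filter] at hc
      rw [Finset.mem_coe, Finset.mem_filter]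
      refine ⟨hc.2.2.1, ?_⟩
      have e5 : z.1 * (z.2.1 + c) + (z.2.2 - z.1 * z.2.1) = z.2.2 + z.1 * c := by ring
      simp only [hφ]
      rw [e5]
      exact hc.2.2.2
    · intro c _ d _ hcd
      exact add_left_cancel hcd
  -- (ii)
  have h2 : T.card ≤ ∑ e ∈ L, (H.filter (fun x => e.1 * x + e.2 ∈ H)).card := by
    rw [Finset.card_eq_sum_card_fiberwise (f := φ) (t := L)
      (fun z hz => Finset.mem_image_of_mem φ hz)]
    apply Finset.sum_le_sum
    intro e _
    apply Finset.card_le_card_of_injOn (fun z => z.2.1)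
    · intro z hz
      rw [Finset.mem_coe, Finset.mem_filter] at hz
      obtain ⟨hz, rfl⟩ := hz
      rw [hT, Finset.mem_filter, Finset.mem_product, Finset.mem_product] at hz
      rw [Finset.mem_coe, Finset.mem_filter]
      refine ⟨hz.1.2.1, ?_⟩
      have e5 : z.1 * z.2.1 + (z.2.2 - z.1 * z.2.1) = z.2.2 := by ring
      simp only [hφ]
      rw [e5]
      exact hz.1.2.2
    · intro z hz w hw hzw
      rw [Finset.mem_coe, Finset.mem_filter] at hz hw
      have e5 : φ z = φ w := hz.2.trans hw.2.symm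
      simp only [hφ, Prod.mk.injEq] at e5
      simp only at hzw
      obtain ⟨e6, e7⟩ := e5
      ext
      · exact e6
      · exact hzw
      · rw [e6, hzw] at e7
        linarith
  -- (iii)
  have hRc : R.card ≤ H.card ^ 2 := by
    have : R ⊆ (H ×ˢ H).image (fun z => z.2 / z.1) := by
      intro l hl
      have h5 := hrep l hl
      unfold rep at h5
      obtain ⟨c, hc⟩ := Finset.card_pos.mp h5
      rw [Finset.mem_filter] at hc
      rw [Finset.mem_image]
      refine ⟨(c, l * c), Finset.mem_product.mpr hc, ?_⟩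
      have hc0 : c ≠ 0 := fun h => h0 (h ▸ hc.1)
      simp only
      field_simp
    refine (Finset.card_le_card this).trans ?_
    refine Finset.card_image_le.trans ?_
    rw [Finset.card_product, sq]
  have hLc : L.card ≤ (H.card * H.card) ^ 2 := by
    rw [hL]
    refine Finset.card_image_le.trans ?_
    rw [hT]
    refine (Finset.card_filter_le _ _).trans ?_
    rw [Finset.card_product, Finset.card_product]
    calc R.card * (H.card * H.card) ≤ H.card ^ 2 * (H.card * H.card) :=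
          Nat.mul_le_mul_right _ hRc
      _ = _ := by ring
  have h3 := hST2 H H L H.card H.card le_rfl le_rfl hLs hLc
  -- (iv)
  have h4 : (∑ e ∈ L, (H.filter (fun x => e.1 * x + e.2 ∈ H)).card) ^ 3 ≤
      L.card ^ 2 * ∑ e ∈ L, (H.filter (fun x => e.1 * x + e.2 ∈ H)).card ^ 3 := by
    exact_mod_cast pow_three_sum L (fun e => (((H.filter (fun x => e.1 * x + e.2 ∈ H)).card : ℕ) : ℝ))
      (fun e _ => Nat.cast_nonneg _)
  have h5 : (R.card * H.card ^ 2) ^ 3 * k ^ 6 ≤
      8 * 4097 * (Nat.log 2 H.card + 1) * (H.card * H.card) ^ 2 * (512 * P.card ^ 2 * P.card ^ 2) ^ 2 := by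
    calc (R.card * H.card ^ 2) ^ 3 * k ^ 6 ≤ (2 * T.card) ^ 3 * k ^ 6 := by gcongr
      _ ≤ (2 * ∑ e ∈ L, (H.filter (fun x => e.1 * x + e.2 ∈ H)).card) ^ 3 * k ^ 6 := by gcongr
      _ = 8 * (∑ e ∈ L, (H.filter (fun x => e.1 * x + e.2 ∈ H)).card) ^ 3 * k ^ 6 := by ring
      _ ≤ 8 * (L.card ^ 2 * ∑ e ∈ L, (H.filter (fun x => e.1 * x + e.2 ∈ H)).card ^ 3) * k ^ 6 := by
          gcongr
      _ ≤ 8 * (L.card ^ 2 * (4097 * (Nat.log 2 H.card + 1) * (H.card * H.card) ^ 2)) * k ^ 6 := by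
          gcongr
      _ = 8 * 4097 * (Nat.log 2 H.card + 1) * (H.card * H.card) ^ 2 * (L.card * k ^ 3) ^ 2 := by ring
      _ ≤ _ := by gcongr
  have h6 : R.card ^ 3 * H.card ^ 2 * k ^ 6 * H.card ^ 4 ≤
      10 ^ 10 * (Nat.log 2 H.card + 1) * P.card ^ 8 * H.card ^ 4 := by
    calc R.card ^ 3 * H.card ^ 2 * k ^ 6 * H.card ^ 4 = (R.card * H.card ^ 2) ^ 3 * k ^ 6 := by ring
      _ ≤ _ := h5
      _ = (8 * 4097 * 512 ^ 2) * (Nat.log 2 H.card + 1) * P.card ^ 8 * H.card ^ 4 := by ring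
      _ ≤ _ := by gcongr; norm_num
  exact Nat.le_of_mul_le_mul_right h6 (by positivity)

theorem t_INC : S_INC := inc_core Pool.Agent.W975.SP.st1 Pool.Agent.W798.SP.pST2

end Pool.Agent.N92.SPC
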